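import Pool.Agent.H195.BPLower
import Pool.Agent.H195.BPChain
import Pool.Agent.H195.BPUpper

/-!
Graph bootstrap percolation: the running time after attaching a pendant edge.

`BP.NewCopy H G x y`: `G + xy` contains a copy of `H` using the edge `xy`.
`BP.step`, `BP.proc`, `BP.tau`, `BP.Mx`: one round, `t` rounds, the running time, and the maximum
running time over all graphs on `n` vertices. `BP.plus H u` is `H^{u+}`.

Taking `H = W₆` (a six-cycle plus a centre joined to all of it) and `u` the centre we get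
`M_{H^{u+}}(n) = Θ(log n)` while `M_H(n)` is at least linear along `n = 5 (m + 1)`; so the dichotomy
that either `M_{H^{u+}}(n) = O(1)` or `M_{H^{u+}}(n) = Θ(M_H(n))` fails.
-/

namespace Pool.Agent.Results.MP_7332c2_co.Wheel

open Pool.Agent.H195.BP Filter

lemma connected_W6 : W6.Connected := by
  have h : ∀ v, W6.Reachable none v := by
    rintro (_ | i)
    · exact SimpleGraph.Reachable.refl _
    · exact SimpleGraph.Adj.reachable (show W6.Adj none (some i) from trivial)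
  rw [SimpleGraph.connected_iff]
  exact ⟨fun u v => (h u).symm.trans (h v), ⟨none⟩⟩

lemma pow_bound (i : ℕ) : 16 * i ^ 2 ≤ 5 ^ (2 * i) := by
  have h1 : 1 + 4 * i ≤ 5 ^ i := by
    induction i with
    | zero => simp
    | succ i ih => rw [pow_succ]; omega
  calc 16 * i ^ 2 ≤ (1 + 4 * i) ^ 2 := by ring_nf; omega
    _ ≤ (5 ^ i) ^ 2 := Nat.pow_le_pow_left h1 2
    _ = 5 ^ (2 * i) := by rw [← pow_mul, mul_comm]

/-- First part: explicit bounds for the wheel and for the wheel with a pendant edge at its centre.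
Second part: the dichotomy fails. -/
theorem result :
    ((∀ m : ℕ, m ≤ Mx W6 (5 * (m + 1))) ∧
      (∀ n k : ℕ, n ≤ 5 ^ k → Mx (plus W6 none) n ≤ k + 46) ∧
      (∀ T : ℕ, T + 1 ≤ Mx (plus W6 none) (5 ^ (T + 1) + 11))) ∧
    ∃ (α : Type) (_ : Fintype α) (H : SimpleGraph α) (u : α), H.Connected ∧
      (¬ ∃ C : ℕ, ∀ᶠ n : ℕ in atTop, Mx (plus H u) n ≤ C) ∧
      ¬ ∃ c C : ℝ, 0 < c ∧ c ≤ C ∧ ∀ᶠ n : ℕ in atTop,
        c * (Mx H n : ℝ) ≤ (Mx (plus H u) n : ℝ) ∧ (Mx (plus H u) n : ℝ) ≤ C * (Mx H n : ℝ) := by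
  refine ⟨⟨Mx_wheel_ge, fun n k h => Mx_plus_le h, Mx_plus_unbounded⟩,
    _, inferInstance, W6, none, connected_W6, ?_, ?_⟩
  · rintro ⟨C, hC⟩
    obtain ⟨N, hN⟩ := eventually_atTop.1 hC
    have h1 := hN (5 ^ (max C N + 1) + 10 + 1) (by
      have := Nat.lt_pow_self (n := max C N + 1) (a := 5) (by norm_num)
      have := le_max_right C N
      omega)
    have h2 := Mx_plus_unbounded (max C N)
    have := le_max_left C N
    omega
  · rintro ⟨c, C, hc, _, h⟩
    obtain ⟨N, hN⟩ := eventually_atTop.1 h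
    obtain ⟨i0, hi0⟩ := exists_nat_gt (50 / c)
    set i := max i0 (N + 1) with hi
    have hi1 : (i0 : ℝ) ≤ i := by exact_mod_cast le_max_left _ _
    have hi2 : N + 1 ≤ i := le_max_right _ _
    have hi3 : (1 : ℝ) ≤ i := by
      have : 1 ≤ i := by omega
      exact_mod_cast this
    have hci : 50 < c * i := by
      have : 50 / c < i := lt_of_lt_of_le hi0 hi1
      rwa [div_lt_iff₀' hc] at this
    have hpos : 1 ≤ 5 ^ (2 * i) := Nat.one_le_pow _ _ (by norm_num)
    have hn : 5 * (5 ^ (2 * i) - 1 + 1) = 5 ^ (2 * i + 1) := by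
      rw [Nat.sub_add_cancel hpos, pow_succ, mul_comm]
    have h1 := Mx_wheel_ge (5 ^ (2 * i) - 1)
    rw [hn] at h1
    have h2 : Mx (plus W6 none) (5 ^ (2 * i + 1)) ≤ 2 * i + 1 + 46 := Mx_plus_le le_rfl
    have hNn : N ≤ 5 ^ (2 * i + 1) := by
      have := Nat.lt_pow_self (n := 2 * i + 1) (a := 5) (by norm_num)
      omega
    have h3 := (hN _ hNn).1
    have h4 := pow_bound i
    have h5 : ((16 * i ^ 2 : ℕ) : ℝ) ≤ Mx W6 (5 ^ (2 * i + 1)) + 1 := by
      have : 16 * i ^ 2 ≤ Mx W6 (5 ^ (2 * i + 1)) + 1 := by omega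
      exact_mod_cast this
    have h6 : (Mx (plus W6 none) (5 ^ (2 * i + 1)) : ℝ) ≤ 2 * i + 47 := by
      have : Mx (plus W6 none) (5 ^ (2 * i + 1)) ≤ 2 * i + 47 := by omega
      exact_mod_cast this
    push_cast at h5
    have h7 : c * (16 * (i : ℝ) ^ 2 - 1) ≤ 2 * i + 47 := by
      refine le_trans ?_ (h3.trans h6)
      apply mul_le_mul_of_nonneg_left _ hc.le
      linarith
    nlinarith [mul_pos hc (by linarith : (0 : ℝ) < i), mul_self_nonneg ((i : ℝ) - 1)]

end Pool.Agent.Results.MP_7332c2_co.Wheel
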